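import Pool.Agent.Helper88.PP.Goals
import Pool.Agent.Helper94.Tot.Final

set_option autoImplicit false

open Finset Filter Topology

open scoped Classical

namespace Pool.Agent.Helper37.PP

open Pool.Agent.Helper88.PP

theorem hb : StmtHB := by
  intro Q u v hQ huv
  have h1 : ∀ b ∈ range Q, ((Ioc u v).filter (fun h => Nat.Coprime (b + h) Q)).card
      = ∑ h ∈ Ioc u v, if Nat.Coprime (b + h) Q then 1 else 0 := fun b _ => Finset.card_filter _ _
  rw [Finset.sum_congr rfl h1, Finset.sum_comm]
  have h2 : ∀ h ∈ Ioc u v, (∑ b ∈ range Q, if Nat.Coprime (b + h) Q then 1 else 0)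
      = Nat.totient Q := by
    intro h _
    rw [← Nat.filter_coprime_Ico_eq_totient Q h, Finset.card_filter]
    refine Finset.sum_nbij' (fun b => b + h) (fun m => m - h) ?_ ?_ ?_ ?_ ?_
    · intro b hb
      rw [mem_range] at hb
      rw [mem_Ico]
      omega
    · intro m hm
      rw [mem_Ico] at hm
      rw [mem_range]
      omega
    · intro b _
      simp
    · intro m hm
      rw [mem_Ico] at hm
      show m - h + h = m
      omega
    · intro b _
      simp only [Nat.coprime_comm]
  rw [Finset.sum_congr rfl h2, Finset.sum_const, Nat.card_Ioc, smul_eq_mul]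

theorem totient_primorial (y : ℕ) (hy : 2 ≤ y) :
    (Nat.totient (primorial y) : ℝ) / primorial y =
      (1 / 2) * om 2 y := by
  unfold om pr
  have h1 := Nat.totient_eq_mul_prod_factors (primorial y)
  rw [primeFactors_primorial] at h1
  have h2 : (Nat.totient (primorial y) : ℝ)
      = (primorial y : ℝ) * ∏ p ∈ Nat.primesLE y, (1 - (p : ℝ)⁻¹) := by
    have h3 := congrArg (fun q : ℚ => (q : ℝ)) h1
    push_cast at h3
    exact h3
  have h4 : (primorial y : ℝ) ≠ 0 := by exact_mod_cast primorial_ne_zero y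
  rw [h2, mul_div_cancel_left₀ _ h4]
  have h5 : Nat.primesLE y = insert 2 ((Ioc 2 y).filter Nat.Prime) := by
    ext p
    simp only [Nat.mem_primesLE, mem_insert, mem_filter, mem_Ioc]
    constructor
    · rintro ⟨h6, h7⟩
      have := h7.two_le
      by_cases h8 : p = 2
      · exact Or.inl h8
      · exact Or.inr ⟨⟨by omega, h6⟩, h7⟩
    · rintro (h6 | ⟨⟨h6, h7⟩, h8⟩)
      · subst h6
        exact ⟨hy, Nat.prime_two⟩
      · exact ⟨h7, h8⟩
  rw [h5, Finset.prod_insert (by simp)]
  congr 1
  · norm_num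
  · exact Finset.prod_congr rfl fun p _ => by rw [one_div]

theorem mp : ∃ C : ℝ, 0 < C ∧ ∀ u v : ℕ, 2 ≤ u → u ≤ v →
    om u v ≤ C * (Real.log u / Real.log v) := by
  obtain ⟨C1, hC1, hMP⟩ := Pool.Agent.Helper94.Tot.allMP
  refine ⟨C1, hC1, fun u v hu huv => ?_⟩
  have h := hMP u v hu huv
  unfold om pr
  convert h

theorem mu : StmtMU := by
  obtain ⟨C1, hC1, hMP⟩ := mp
  refine ⟨8 * C1 ^ 2, by positivity, ?_⟩
  intro lam hlam T E hT hE
  have hT' : (1 : ℝ) ≤ T := by exact_mod_cast hT
  have hE' : (1 : ℝ) ≤ E := by exact_mod_cast hE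
  set L0 : ℝ := max 900 (8 * T * lam * E) with hL0
  have htend : Tendsto (fun z : ℕ => Real.log z) atTop atTop :=
    Real.tendsto_log_atTop.comp tendsto_natCast_atTop_atTop
  obtain ⟨z0, hz0⟩ := eventually_atTop.mp ((htend.eventually_ge_atTop L0).and
    (eventually_ge_atTop 2))
  refine ⟨z0, ?_⟩
  intro z hz x hx1 hx2
  obtain ⟨hL, hz2⟩ := hz0 z hz
  set L : ℝ := Real.log z with hLdef
  have hL900 : 900 ≤ L := (le_max_left _ _).trans hL
  have hL8 : 8 * T * lam * E ≤ L := (le_max_right _ _).trans hL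
  have hL1 : (0 : ℝ) < L := by linarith only [hL900]
  have hz2' : (2 : ℝ) ≤ z := by exact_mod_cast hz2
  have hzpos : (0 : ℝ) < z := by linarith only [hz2']
  have hexpL : Real.exp L = z := Real.exp_log hzpos
  have hxpos : (0 : ℝ) < x := by
    have : 0 < x := lt_of_lt_of_le (pow_pos (by omega) E) hx1
    exact_mod_cast this
  -- log x
  have hlx1 : L ≤ Real.log x := by
    have h1 : (z : ℝ) ^ E ≤ x := by exact_mod_cast hx1
    have h2 : Real.log ((z : ℝ) ^ E) ≤ Real.log x := Real.log_le_log (by positivity) h1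
    rw [Real.log_pow] at h2
    nlinarith only [hE', h2, hL900]
  have hlx2 : Real.log x ≤ 2 * E * L := by
    have h1 : (x : ℝ) ≤ (z + 1 : ℝ) ^ E := by exact_mod_cast hx2.le
    have h2 : Real.log x ≤ Real.log ((z + 1 : ℝ) ^ E) := Real.log_le_log hxpos h1
    rw [Real.log_pow] at h2
    have h3 : Real.log (z + 1 : ℝ) ≤ 2 * L := by
      rw [hLdef, ← Nat.cast_ofNat (R := ℝ) (n := 2), ← Real.log_pow]
      refine Real.log_le_log (by positivity) ?_
      nlinarith only [hz2']
    nlinarith only [h2, h3]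
  have hlx0 : 0 < Real.log x := by linarith only [hL900, hlx1]
  set H : ℕ := ⌈lam * Real.log x⌉₊ with hH
  have hH1 : lam * Real.log x ≤ H := Nat.le_ceil _
  have hH2 : (H : ℝ) ≤ 4 * lam * E * L := by
    have h1 : (H : ℝ) < lam * Real.log x + 1 := Nat.ceil_lt_add_one (by positivity)
    have h2 : (1 : ℝ) ≤ lam * Real.log x := by nlinarith only [hlam, hL900, hlx1]
    have h3 : lam * Real.log x ≤ lam * (2 * E * L) := mul_le_mul_of_nonneg_left hlx2 (by linarith only [hlam])
    nlinarith only [h1, h2, h3]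
  have hHge : (900 : ℝ) ≤ H := by nlinarith only [hlam, hL900, hlx1, hH1]
  -- T H
  have hTH1 : (900 : ℝ) ≤ (T * H : ℕ) := by
    push_cast
    nlinarith only [hT', hHge]
  have hTH2 : ((T * H : ℕ) : ℝ) ≤ L * L / 2 := by
    push_cast
    have h1 : (T : ℝ) * H ≤ T * (4 * lam * E * L) := mul_le_mul_of_nonneg_left hH2 (by linarith only [hT'])
    nlinarith only [hL8, hH2, hT', hL900]
  have hTHz : T * H ≤ z := by
    have h1 : L * L / 2 ≤ z := by
      rw [← hexpL]
      have := Real.quadratic_le_exp_of_nonneg hL1.le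
      nlinarith only [hL900, this]
    exact_mod_cast hTH2.trans h1
  have hlogL : 0 < Real.log L := Real.log_pos (by linarith only [hL900])
  have hlogTH : Real.log ((T * H : ℕ) : ℝ) ≤ 2 * Real.log L := by
    rw [← Nat.cast_ofNat (R := ℝ) (n := 2), ← Real.log_pow]
    refine Real.log_le_log (by linarith only [hTH1]) (hTH2.trans ?_)
    nlinarith only [hTH1, hTH2]
  have hom : om (T * H) z ≤ C1 * (2 * Real.log L / L) := by
    have h1 := hMP (T * H) z (by
      have : (2 : ℝ) ≤ (T * H : ℕ) := by linarith only [hTH1]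
      exact_mod_cast this) hTHz
    exact h1.trans (mul_le_mul_of_nonneg_left
      (div_le_div_of_nonneg_right hlogTH hL1.le) hC1.le)
  have hom0 : 0 ≤ om (T * H) z := by
    unfold om
    refine Finset.prod_nonneg fun p hp => ?_
    simp only [pr, mem_filter] at hp
    have h1 : (1 : ℝ) ≤ p := by exact_mod_cast hp.2.one_le
    have h2 : 1 / (p : ℝ) ≤ 1 := by
      rw [div_le_one (by linarith only [h1])]
      exact h1
    linarith only [h2]
  -- the totient
  set y : ℕ := ⌊Real.log x / 20⌋₊ with hy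
  have hy1 : Real.sqrt L ≤ y := by
    have h1 : Real.log x / 20 < y + 1 := Nat.lt_floor_add_one _
    have h2 : Real.sqrt L ≤ L / 30 := by
      rw [Real.sqrt_le_left (by linarith only [hL900])]
      nlinarith only [hL900]
    linarith only [hL900, hlx1, h1, h2]
  have hsq : (30 : ℝ) ≤ Real.sqrt L := by
    refine Real.le_sqrt_of_sq_le ?_
    linarith only [hL900]
  have hy2 : 2 ≤ y := by
    have : (2 : ℝ) ≤ y := by linarith only [hy1, hsq]
    exact_mod_cast this
  have hlogy : Real.log L / 2 ≤ Real.log y := by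
    rw [← Real.log_sqrt hL1.le]
    exact Real.log_le_log (by linarith only [hsq]) hy1
  have htot : (Nat.totient (QQ x) : ℝ) / QQ x ≤ C1 / Real.log L := by
    unfold QQ
    rw [totient_primorial y hy2]
    have h1 := hMP 2 y le_rfl hy2
    have h2 : Real.log ((2 : ℕ) : ℝ) / Real.log y ≤ 2 / Real.log L := by
      rw [div_le_div_iff₀ (by linarith only [hlogL, hlogy]) hlogL]
      have h3 : Real.log ((2 : ℕ) : ℝ) ≤ 1 := by
        rw [Nat.cast_ofNat]
        linarith only [Real.log_two_lt_d9]
      have h4 := mul_le_mul_of_nonneg_right h3 hlogL.le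
      linarith only [hlogy, h4]
    calc _ ≤ (1 / 2) * (C1 * (2 / Real.log L)) := by
          refine mul_le_mul_of_nonneg_left ?_ (by norm_num)
          exact h1.trans (mul_le_mul_of_nonneg_left h2 hC1.le)
      _ = _ := by ring
  have htot0 : 0 ≤ (Nat.totient (QQ x) : ℝ) / QQ x := by positivity
  calc (H : ℝ) * ((Nat.totient (QQ x) : ℝ) / QQ x) * om (T * H) z
      ≤ (4 * lam * E * L) * (C1 / Real.log L) * (C1 * (2 * Real.log L / L)) := by
        refine mul_le_mul ?_ hom hom0 (by positivity)
        exact mul_le_mul hH2 htot htot0 (by positivity)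
    _ = 8 * C1 ^ 2 * lam * E := by
        field_simp
        ring

end Pool.Agent.Helper37.PP
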