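import Pool.Agent.Helper88.PP.Goals

set_option autoImplicit false

open Finset Filter Topology

open scoped Classical

namespace Pool.Agent.Helper37.PP

open Pool.Agent.Helper88.PP

theorem om_nonneg (y z : ℕ) : 0 ≤ om y z := by
  unfold om
  refine Finset.prod_nonneg fun p hp => ?_
  simp only [pr, mem_filter] at hp
  have h1 : (1 : ℝ) ≤ p := by exact_mod_cast hp.2.one_le
  have h2 : 1 / (p : ℝ) ≤ 1 := by
    rw [div_le_one (by linarith)]
    exact h1
  linarith

theorem V1_nonneg (E z : ℕ) : 0 ≤ V1 E z := Finset.sum_nonneg fun _ _ => by positivity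

theorem VV_nonneg (z m m' : ℕ) : 0 ≤ VV z m m' := Finset.sum_nonneg fun _ _ => by positivity

theorem aa_nonneg (q E z r : ℕ) : 0 ≤ aa q E z r := by
  unfold aa
  have := VV_nonneg z (m1 q E) (m2 q E)
  positivity

theorem sum_aa (q E z : ℕ) (hV : VV z (m1 q E) (m2 q E) ≠ 0) :
    ∑ s ∈ LA z (m1 q E) (m2 q E), aa q E z s = 1 := by
  have h1 : ∀ s ∈ LA z (m1 q E) (m2 q E), aa q E z s
      = (1 / VV z (m1 q E) (m2 q E)) * (1 / ((Nat.totient s : ℝ) * ee z s)) := by
    intro s _
    unfold aa
    rw [one_div_mul_one_div, mul_assoc]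
  rw [Finset.sum_congr rfl h1, ← Finset.mul_sum]
  show 1 / VV z (m1 q E) (m2 q E) * VV z (m1 q E) (m2 q E) = 1
  exact one_div_mul_cancel hV

theorem De_nonneg (q E z t : ℕ) : 0 ≤ De q E z t := Finset.sum_nonneg fun _ _ => aa_nonneg _ _ _ _

theorem De_le (q E z t : ℕ) (hV : VV z (m1 q E) (m2 q E) ≠ 0) : De q E z t ≤ 1 := by
  rw [← sum_aa q E z hV]
  exact Finset.sum_le_sum_of_subset_of_nonneg (Finset.filter_subset _ _)
    fun _ _ _ => aa_nonneg _ _ _ _

theorem De_zero (q E z t : ℕ) (hz : 2 ≤ z) (ht : t + m2 q E ≤ MM E) : De q E z t = 0 := by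
  unfold De
  rw [Finset.sum_eq_zero]
  intro s hs
  exfalso
  simp only [mem_filter, LA, SS, mem_Ico] at hs
  obtain ⟨⟨⟨⟨h1, h2⟩, -⟩, -⟩, h3⟩ := hs
  have h4 : Nat.log z s < m2 q E := Nat.log_lt_of_lt_pow (by omega) h2
  unfold ee at h3
  omega

/-- number of labels -/
theorem card_labels {q E z : ℕ} (hq : 1 ≤ q) (hz : 2 ≤ z) {P : Finset ℕ} {r : P → ℕ}
    (hr : r ∈ TT q E z P) : (univ.filter (fun i => r i ≠ 0)).card ≤ 2 * q := by
  simp only [TT, mem_filter, Fintype.mem_piFinset, mem_insert] at hr
  obtain ⟨h1, h2⟩ := hr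
  have h3 : (univ.filter (fun i => r i ≠ 0)).card * (m1 q E + 1)
      ≤ ∑ i, (if r i = 0 then 0 else ee z (r i)) := by
    rw [← smul_eq_mul, ← Finset.sum_const, Finset.sum_filter]
    refine Finset.sum_le_sum fun i _ => ?_
    by_cases hi : r i = 0
    · simp [hi]
    · simp only [ne_eq, hi, not_false_eq_true, if_true, if_false]
      have h4 := (h1 i).resolve_left hi
      simp only [LA, SS, mem_filter, mem_Ico] at h4
      unfold ee
      have h5 : m1 q E ≤ Nat.log z (r i) := Nat.le_log_of_pow_le (by omega) h4.2
      omega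
  have h4 : MM E < (2 * q) * (m1 q E + 1) := by
    unfold MM m1
    have := Nat.lt_mul_div_succ (E / 16) (show 0 < 2 * q by omega)
    exact this
  by_contra hc
  push Not at hc
  have h5 : (2 * q) * (m1 q E + 1) ≤ (univ.filter (fun i => r i ≠ 0)).card * (m1 q E + 1) :=
    Nat.mul_le_mul_right _ hc.le
  omega

theorem prod_labels {q E z : ℕ} (hz : 2 ≤ z) {P : Finset ℕ} {r : P → ℕ}
    (hr : r ∈ TT q E z P) : ∏ i, max 1 (r i) ≤ z ^ MM E := by
  simp only [TT, mem_filter, Fintype.mem_piFinset, mem_insert] at hr
  obtain ⟨-, h2⟩ := hr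
  calc ∏ i, max 1 (r i) ≤ ∏ i, z ^ (if r i = 0 then 0 else ee z (r i)) := by
        refine Finset.prod_le_prod' fun i _ => ?_
        by_cases hi : r i = 0
        · simp [hi]
        · simp only [hi, if_false]
          have h3 : r i < z ^ (Nat.log z (r i) + 1) := Nat.lt_pow_succ_log_self (by omega) _
          unfold ee
          omega
    _ = z ^ (∑ i, (if r i = 0 then 0 else ee z (r i))) := Finset.prod_pow_eq_pow_sum _ _ _
    _ ≤ z ^ MM E := Nat.pow_le_pow_right (by omega) h2

theorem gt (hTS : StmtTS) : StmtGT := by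
  intro q hq A ε hA hε
  obtain ⟨E0, hE0⟩ := hTS q hq A ε (2 * q + 1) hA hε
  refine ⟨max E0 (32 * q), ?_⟩
  intro E hE
  have hE1 : E0 ≤ E := (le_max_left _ _).trans hE
  have hE2 : 32 * q ≤ E := (le_max_right _ _).trans hE
  obtain ⟨z0, hz0⟩ := hE0 E hE1
  refine ⟨max z0 2, ?_⟩
  intro z hz x y hsc b hb P hP hPc h
  have hz1 : z0 ≤ z := (le_max_left _ _).trans hz
  have hz2 : 2 ≤ z := (le_max_right _ _).trans hz
  have hq1 : 1 ≤ q := hq.1
  have hm1 : 1 ≤ m1 q E := by
    unfold m1
    rw [Nat.le_div_iff_mul_le (by omega), Nat.le_div_iff_mul_le (by omega)]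
    omega
  have hV : VV z (m1 q E) (m2 q E) ≠ 0 := by
    have := hq.2 (m1 q E) z hm1 hz2
    unfold m2
    linarith
  set Th : Finset (P → ℕ) := (TT q E z P).filter (fun r => r h = 0) with hTh
  set S : Finset ℕ := SS z (z ^ MM E) with hS
  set co : ℕ → ℝ := fun r => if r = 0 then 1 else - aa q E z r with hco
  set cc : (P → ℕ) → ℝ := fun r' => De q E z (cost z (Function.update r' h 0)) *
    (1 / (V1 E z * (Nat.totient (r' h) : ℝ))) * ∏ i ∈ univ.erase h, co (r' i) with hcc
  set T : Finset (P → ℕ) := (Th ×ˢ S).image (fun p => Function.update p.1 h p.2) with hT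
  have hinj : Set.InjOn (fun p : (P → ℕ) × ℕ => Function.update p.1 h p.2)
      ((Th ×ˢ S : Finset ((P → ℕ) × ℕ)) : Set ((P → ℕ) × ℕ)) := by
    rintro ⟨r, s⟩ hr ⟨r', s'⟩ hr' heq
    rw [mem_coe, mem_product] at hr hr'
    simp only [hTh, mem_filter] at hr hr'
    simp only at heq
    have h1 : s = s' := by
      have := congrFun heq h
      simpa using this
    have h2 : r = r' := by
      funext i
      by_cases hi : i = h
      · rw [hi, hr.1.2, hr'.1.2]
      · have := congrFun heq i
        simpa [Function.update_of_ne hi] using this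
    rw [h1, h2]
  have hupd0 : ∀ r ∈ Th, ∀ s, Function.update (Function.update r h s) h 0 = r := by
    intro r hr s
    rw [Function.update_idem]
    simp only [hTh, mem_filter] at hr
    rw [← hr.2, Function.update_eq_self]
  have hTS' := hz0 z hz1 x y hsc b hb P hP hPc T cc {h} (by simp) ?_ ?_ ?_ ?_ ?_
  · -- conclusion
    have hGG : ∀ n, GG q E z y P h n = ∑ r ∈ T, cc r * ∏ i, vv y z (r i) (n + (i : ℕ)) := by
      intro n
      rw [hT, Finset.sum_image hinj, Finset.sum_product]
      unfold GG
      refine Finset.sum_congr rfl fun r hr => Finset.sum_congr rfl fun s _ => ?_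
      have hr0 : r h = 0 := by
        rw [hTh, mem_filter] at hr
        exact hr.2
      simp only [hcc]
      rw [hupd0 r hr s, Function.update_self]
      rw [← Finset.mul_prod_erase univ (fun i : P => vv y z (Function.update r h s i) (n + (i : ℕ)))
        (mem_univ h), Function.update_self]
      rw [← Finset.mul_prod_erase univ (fun i : P => ((if r i = 0 then 1 else - aa q E z (r i)) *
        vv y z (r i) (n + (i : ℕ)))) (mem_univ h)]
      have e1 : ∏ i ∈ univ.erase h, co (Function.update r h s i)
          = ∏ i ∈ univ.erase h, co (r i) := by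
        refine Finset.prod_congr rfl fun i hi => ?_
        rw [Function.update_of_ne (Finset.ne_of_mem_erase hi)]
      have e2 : ∏ i ∈ univ.erase h, vv y z (Function.update r h s i) (n + (i : ℕ))
          = ∏ i ∈ univ.erase h, vv y z (r i) (n + (i : ℕ)) := by
        refine Finset.prod_congr rfl fun i hi => ?_
        rw [Function.update_of_ne (Finset.ne_of_mem_erase hi)]
      rw [e1, e2, hr0]
      have e3 : vv y z 0 (n + (h : ℕ)) = 1 := by simp [vv]
      rw [e3, Finset.prod_mul_distrib]
      simp only [if_true, one_mul, hco]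
      ring
    have hmain : ∑ r ∈ T, cc r ^ 2 * ∏ i, ww (om y z) (r i) ≤ om y z *
        (1 / V1 E z * ∑ r ∈ (TT q E z P).filter (fun r => MM E < cost z r + m2 q E), ∏ i : P,
        ((if r i = 0 then 1 else (aa q E z (r i)) ^ 2) * ww (om y z) (r i))) := by
      rw [hT, Finset.sum_image hinj, Finset.sum_product]
      have hww : ∀ r, 0 ≤ ww (om y z) r := by
        intro r
        unfold ww
        have := om_nonneg y z
        split_ifs <;> positivity
      have hterm : ∀ r ∈ Th, ∀ s ∈ S, cc (Function.update r h s) ^ 2 *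
          ∏ i, ww (om y z) (Function.update r h s i) =
          (De q E z (cost z r) ^ 2 * ∏ i : P,
            ((if r i = 0 then 1 else (aa q E z (r i)) ^ 2) * ww (om y z) (r i))) *
          (om y z * (1 / V1 E z) ^ 2 * (1 / (Nat.totient s : ℝ))) := by
        intro r hr s hs
        have hr0 : r h = 0 := by
          simp only [hTh, mem_filter] at hr
          exact hr.2
        have hs0 : s ≠ 0 := by
          simp only [hS, SS, mem_filter, mem_Ico] at hs
          omega
        have hs1 : (Nat.totient s : ℝ) ≠ 0 := by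
          have : 0 < Nat.totient s := Nat.totient_pos.mpr (Nat.pos_of_ne_zero hs0)
          exact_mod_cast this.ne'
        simp only [hcc]
        rw [hupd0 r hr s, Function.update_self]
        rw [← Finset.mul_prod_erase univ (fun i : P => ww (om y z) (Function.update r h s i))
          (mem_univ h), Function.update_self]
        rw [← Finset.mul_prod_erase univ (fun i : P => ((if r i = 0 then 1
          else (aa q E z (r i)) ^ 2) * ww (om y z) (r i))) (mem_univ h)]
        have e1 : ∏ i ∈ univ.erase h, co (Function.update r h s i)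
            = ∏ i ∈ univ.erase h, co (r i) := by
          refine Finset.prod_congr rfl fun i hi => ?_
          rw [Function.update_of_ne (Finset.ne_of_mem_erase hi)]
        have e2 : ∏ i ∈ univ.erase h, ww (om y z) (Function.update r h s i)
            = ∏ i ∈ univ.erase h, ww (om y z) (r i) := by
          refine Finset.prod_congr rfl fun i hi => ?_
          rw [Function.update_of_ne (Finset.ne_of_mem_erase hi)]
        have e3 : (∏ i ∈ univ.erase h, co (r i)) ^ 2
            = ∏ i ∈ univ.erase h, (if r i = 0 then 1 else (aa q E z (r i)) ^ 2) := by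
          rw [← Finset.prod_pow]
          refine Finset.prod_congr rfl fun i _ => ?_
          simp only [hco]
          split_ifs <;> ring
        have e4 : ww (om y z) s = om y z * (Nat.totient s : ℝ) := by simp [ww, hs0]
        have e5 : ww (om y z) 0 = 1 := by simp [ww]
        rw [e1, e2, hr0, e4, e5, mul_pow, mul_pow, e3, Finset.prod_mul_distrib]
        simp only [if_true, one_mul]
        by_cases hV1 : V1 E z = 0
        · simp [hV1]
        · field_simp
      rw [Finset.sum_congr rfl fun r hr => Finset.sum_congr rfl fun s hs => hterm r hr s hs]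
      rw [Finset.sum_congr rfl fun r _ => (Finset.mul_sum _ _ _).symm, ← Finset.sum_mul,
        ← Finset.mul_sum]
      have e6 : om y z * (1 / V1 E z) ^ 2 * ∑ s ∈ S, 1 / (Nat.totient s : ℝ)
          = om y z * (1 / V1 E z) := by
        show om y z * (1 / V1 E z) ^ 2 * V1 E z = _
        by_cases hV1 : V1 E z = 0
        · simp [hV1]
        · field_simp
      rw [e6]
      have e7 : ∑ r ∈ Th, De q E z (cost z r) ^ 2 * ∏ i : P,
            ((if r i = 0 then 1 else (aa q E z (r i)) ^ 2) * ww (om y z) (r i)) ≤
          ∑ r ∈ (TT q E z P).filter (fun r => MM E < cost z r + m2 q E), ∏ i : P,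
            ((if r i = 0 then 1 else (aa q E z (r i)) ^ 2) * ww (om y z) (r i)) := by
        have hpos : ∀ r : P → ℕ, 0 ≤ ∏ i : P,
            ((if r i = 0 then 1 else (aa q E z (r i)) ^ 2) * ww (om y z) (r i)) := by
          intro r
          refine Finset.prod_nonneg fun i _ => mul_nonneg ?_ (hww _)
          split_ifs <;> positivity
        conv_rhs => rw [Finset.sum_filter]
        refine (Finset.sum_le_sum_of_subset_of_nonneg (Finset.filter_subset _ _)
          fun r _ _ => mul_nonneg (sq_nonneg _) (hpos r)).trans ?_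
        refine Finset.sum_le_sum fun r _ => ?_
        split_ifs with hcost
        · have h1 := De_le q E z (cost z r) hV
          have h2 := De_nonneg q E z (cost z r)
          have h3 : De q E z (cost z r) ^ 2 ≤ 1 := pow_le_one₀ h2 h1
          calc _ ≤ 1 * _ := mul_le_mul_of_nonneg_right h3 (hpos r)
            _ = _ := one_mul _
        · rw [De_zero q E z (cost z r) hz2 (by omega)]
          simp
      calc _ ≤ _ := mul_le_mul_of_nonneg_right e7 (by
            have := om_nonneg y z
            have := V1_nonneg E z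
            positivity)
        _ = _ := by ring
    have hXX : 0 ≤ XX x := by
      unfold XX
      positivity
    have h1 := (abs_le.mp hTS').2
    rw [Finset.card_singleton, pow_one] at h1
    rw [Finset.sum_congr rfl fun n _ => by rw [hGG n]]
    have h2 := mul_le_mul_of_nonneg_left hmain hXX
    calc _ ≤ XX x * ∑ r ∈ T, cc r ^ 2 * ∏ i, ww (om y z) (r i) + ε / E * om y z * XX x := by
          linarith
      _ ≤ _ := by
          rw [mul_add]
          have e8 : XX x * om y z * (ε / E) = ε / E * om y z * XX x := by ring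
          rw [e8, mul_assoc (XX x) (om y z)]
          linarith
  · intro r' hr' i hi
    rw [hT, mem_image] at hr'
    obtain ⟨⟨r, s⟩, hrs, rfl⟩ := hr'
    rw [mem_product] at hrs
    have hi' : i ≠ h := by simpa using hi
    simp only
    rw [Function.update_of_ne hi']
    have h1 := hrs.1
    simp only [hTh, TT, mem_filter, Fintype.mem_piFinset, mem_insert] at h1
    exact h1.1.1 i
  · intro r' hr' i hi
    rw [hT, mem_image] at hr'
    obtain ⟨⟨r, s⟩, hrs, rfl⟩ := hr'
    rw [mem_product] at hrs
    have hi' : i = h := by simpa using hi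
    subst hi'
    simp only
    rw [Function.update_self]
    exact hrs.2
  · intro r' hr'
    rw [hT, mem_image] at hr'
    obtain ⟨⟨r, s⟩, hrs, rfl⟩ := hr'
    rw [mem_product] at hrs
    have h1 := hrs.1
    simp only [hTh, mem_filter] at h1
    have h2 := card_labels hq1 hz2 h1.1
    have h3 : (univ.filter (fun i => Function.update r h s i ≠ 0))
        ⊆ insert h (univ.filter (fun i => r i ≠ 0)) := by
      intro i hi
      rw [mem_insert]
      by_cases hih : i = h
      · exact Or.inl hih
      · right
        simp only [mem_filter, mem_univ, true_and] at hi ⊢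
        rwa [Function.update_of_ne hih] at hi
    exact (Finset.card_le_card h3).trans ((Finset.card_insert_le _ _).trans (by omega))
  · intro r' hr'
    rw [hT, mem_image] at hr'
    obtain ⟨⟨r, s⟩, hrs, rfl⟩ := hr'
    rw [mem_product] at hrs
    have h1 := hrs.1
    simp only [hTh, mem_filter] at h1
    have h2 := prod_labels hz2 h1.1
    have hs := hrs.2
    simp only [hS, SS, mem_filter, mem_Ico] at hs
    simp only
    rw [← Finset.mul_prod_erase univ (fun i : P => max 1 (Function.update r h s i)) (mem_univ h),
      Function.update_self]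
    rw [← Finset.mul_prod_erase univ (fun i : P => max 1 (r i)) (mem_univ h)] at h2
    have e1 : ∏ i ∈ univ.erase h, max 1 (Function.update r h s i)
        = ∏ i ∈ univ.erase h, max 1 (r i) := by
      refine Finset.prod_congr rfl fun i hi => ?_
      rw [Function.update_of_ne (Finset.ne_of_mem_erase hi)]
    rw [e1, h1.2] at *
    simp only [Nat.max_eq_left (Nat.zero_le 1), one_mul] at h2
    rw [two_mul, pow_add]
    exact Nat.mul_le_mul (by omega) h2
  · intro r' hr'
    rw [hT, mem_image] at hr'
    obtain ⟨⟨r, s⟩, hrs, rfl⟩ := hr'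
    rw [mem_product] at hrs
    have h1 := hrs.1
    simp only [hcc]
    rw [hupd0 r hrs.1 s]
    rw [← Finset.mul_prod_erase univ (fun i : P => if i ∈ ({h} : Finset P) then
      1 / (V1 E z * (Nat.totient (Function.update r h s i) : ℝ)) else
      if Function.update r h s i = 0 then 1 else aa q E z (Function.update r h s i)) (mem_univ h)]
    rw [Function.update_self, if_pos (by simp), abs_mul, abs_mul,
      abs_of_nonneg (De_nonneg q E z _), Finset.abs_prod]
    have h2 : 0 ≤ 1 / (V1 E z * (Nat.totient s : ℝ)) := by
      have := V1_nonneg E z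
      positivity
    rw [abs_of_nonneg h2]
    have e1 : ∏ i ∈ univ.erase h, |co (Function.update r h s i)| =
        ∏ i ∈ univ.erase h, (if i ∈ ({h} : Finset P) then
          1 / (V1 E z * (Nat.totient (Function.update r h s i) : ℝ)) else
          if Function.update r h s i = 0 then 1 else aa q E z (Function.update r h s i)) := by
      refine Finset.prod_congr rfl fun i hi => ?_
      rw [if_neg (by simpa using Finset.ne_of_mem_erase hi)]
      simp only [hco]
      split_ifs
      · simp
      · rw [abs_neg, abs_of_nonneg (aa_nonneg _ _ _ _)]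
    rw [e1]
    refine mul_le_mul_of_nonneg_right ?_ ?_
    · calc _ ≤ 1 * (1 / (V1 E z * (Nat.totient s : ℝ))) :=
            mul_le_mul_of_nonneg_right (De_le q E z _ hV) h2
        _ = _ := one_mul _
    · rw [← e1]
      exact Finset.prod_nonneg fun _ _ => abs_nonneg _

end Pool.Agent.Helper37.PP
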